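import Pool.Agent.Work.MP_9e3593_pr.An7

/-! The analytic theorem for all `p` close to one (the proof of helper73, parameter left free). -/

set_option autoImplicit false

namespace Pool.Agent.Work.MP_9e3593_pr

open Finset MeasureTheory ProbabilityTheory

/-- The main analytic theorem, for all `p` close to one. -/
theorem analytic_strong : ∃ p₀ : ℝ, 0 ≤ p₀ ∧ p₀ < 1 ∧ ∀ p : ℝ, p₀ ≤ p → p ≤ 1 →
    Filter.Tendsto (fun N : ℕ =>
    ∫ e, ∑ c ∈ Finset.range (deg (e [])), wt e N [] c * Gr e N [c] 1 (1/18)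
      ∂(MeasureTheory.Measure.infinitePi (fun _ : List ℕ => bern p))) Filter.atTop (nhds 0) := by
  classical
  obtain ⟨D, hD⟩ := block
  have h2D : (1 : ℝ) ≤ 2 ^ D := one_le_pow₀ (by norm_num)
  have hDD : 1 / (10 ^ 8 * 2 ^ D) ≤ (1 : ℝ) / 10 ^ 8 := by
    apply one_div_le_one_div_of_le (by norm_num)
    linarith
  have hDD0 : (0 : ℝ) < 1 / (10 ^ 8 * 2 ^ D) := by positivity
  refine ⟨1 - 1 / (10 ^ 8 * 2 ^ D), by norm_num at hDD ⊢; linarith, by linarith, ?_⟩
  intro p hpl hpu
  set δ : ℝ := 1 - p with hδ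
  have hδ0 : 0 ≤ δ := by rw [hδ]; linarith
  have hδ1 : δ ≤ 1 / 10 ^ 8 := by rw [hδ]; linarith
  have hδ2 : 2 ^ D * δ ≤ 1 / 10 ^ 8 := by
    have h1 : δ ≤ 1 / (10 ^ 8 * 2 ^ D) := by rw [hδ]; linarith
    calc 2 ^ D * δ ≤ 2 ^ D * (1 / (10 ^ 8 * 2 ^ D)) := by gcongr
      _ = 1 / 10 ^ 8 := by field_simp
  have hp0 : 0 ≤ p := by
    have : (1 : ℝ) / 10 ^ 8 ≤ 1 := by norm_num
    linarith
  have hp1 : p ≤ 1 := hpu
  have := bern_prob hp0 hp1
  have hpδ : 1 - p = δ := by rw [hδ]
  -- the recursion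
  have key : ∀ k : ℕ, ∃ X Y : ℝ, 0 ≤ X ∧ 0 ≤ Y ∧ X + 100 * Y ≤ 1 / 10 ^ 5 * (995 / 1000) ^ k ∧
      (∀ v, ∫ e, YA D k v e ∂(PP p) ≤ X) ∧ (∀ v, ∫ e, YB D k v e ∂(PP p) ≤ Y) := by
    intro k
    induction k with
    | zero =>
      refine ⟨1 / 10 ^ 6 + 1 / 10 ^ 8, 1 / 10 ^ 8 + 1 / 10 ^ 8, by norm_num, by norm_num,
        by norm_num, ?_, ?_⟩
      · intro v
        obtain ⟨hi, hle⟩ := int_notBin hp0 hp1 D v
        calc ∫ e, YA D 0 v e ∂(PP p)
            ≤ ∫ e, (1 / 10 ^ 6 + (if Bin e D v then (0 : ℝ) else 1)) ∂(PP p) := by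
              apply integral_mono (YA_int D 0 v) ((integrable_const _).add hi)
              intro e
              show YA D 0 v e ≤ 1 / 10 ^ 6 + (if Bin e D v then (0 : ℝ) else 1)
              have hC := Cc_bounds e (D + 0) v
              by_cases hb : Bin e D v
              · simp only [YA, psi, hb, if_true]
                nlinarith
              · simp only [YA, psi, hb, if_false]
                linarith
          _ = 1 / 10 ^ 6 + ∫ e, (if Bin e D v then (0 : ℝ) else 1) ∂(PP p) := by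
              rw [integral_add (integrable_const _) hi]
              simp
          _ ≤ _ := by
              rw [hpδ] at hle
              nlinarith
      · intro v
        obtain ⟨hi, hle⟩ := int_notBin hp0 hp1 D v
        calc ∫ e, YB D 0 v e ∂(PP p)
            ≤ ∫ e, (1 / 10 ^ 8 + (if Bin e D v then (0 : ℝ) else 1)) ∂(PP p) := by
              apply integral_mono (YB_int D 0 v) ((integrable_const _).add hi)
              intro e
              show YB D 0 v e ≤ 1 / 10 ^ 8 + (if Bin e D v then (0 : ℝ) else 1)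
              have hC := Cc_bounds e (D + 0) v
              by_cases hb : Bin e D v
              · simp only [YB, psi, hb, if_true]
                nlinarith
              · simp only [YB, psi, hb, if_false]
                linarith
          _ = 1 / 10 ^ 8 + ∫ e, (if Bin e D v then (0 : ℝ) else 1) ∂(PP p) := by
              rw [integral_add (integrable_const _) hi]
              simp
          _ ≤ _ := by
              rw [hpδ] at hle
              nlinarith
    | succ k ih =>
      obtain ⟨X, Y, hX0, hY0, hXY, hX, hY⟩ := ih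
      obtain ⟨h1, h2⟩ := int_step hp0 hp1 D k hX0 hX hY
      rw [hpδ] at h1 h2
      have hr : (995 / 1000 : ℝ) ^ k ≤ 1 := pow_le_one₀ (by norm_num) (by norm_num)
      have hX1 : X ≤ 1 / 10 ^ 5 := by
        have : X + 100 * Y ≤ 1 / 10 ^ 5 * 1 :=
          hXY.trans (mul_le_mul_of_nonneg_left hr (by norm_num))
        linarith
      refine ⟨_, _, ?_, ?_, ?_, h1, h2⟩
      · positivity
      · positivity
      · have h3 : X ^ 2 ≤ 1 / 10 ^ 5 * X := by
          rw [pow_two]; exact mul_le_mul_of_nonneg_right hX1 hX0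
        have h4 : δ * X ≤ 1 / 10 ^ 8 * X := mul_le_mul_of_nonneg_right hδ1 hX0
        have h5 : 72 / 73 * (X + Y) + 8 * δ * X + 100 * (24 / 25 * (4 * X ^ 2 + Y) + 8 * δ * X) ≤
            995 / 1000 * (X + 100 * Y) := by
          norm_num at h3 h4 ⊢
          linarith
        calc _ ≤ 995 / 1000 * (X + 100 * Y) := h5
          _ ≤ 995 / 1000 * (1 / 10 ^ 5 * (995 / 1000) ^ k) :=
            mul_le_mul_of_nonneg_left hXY (by norm_num)
          _ = _ := by rw [pow_succ]; ring
  -- conclusion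
  rw [← Filter.tendsto_add_atTop_iff_nat D]
  have hlim : Filter.Tendsto (fun k : ℕ => 5 * (1 / 10 ^ 5 * (995 / 1000 : ℝ) ^ k))
      Filter.atTop (nhds 0) := by
    have h1 := tendsto_pow_atTop_nhds_zero_of_lt_one (r := (995 / 1000 : ℝ)) (by norm_num)
      (by norm_num)
    have h2 := (h1.const_mul (1 / 10 ^ 5 : ℝ)).const_mul 5
    simpa using h2
  have hGr : ∀ (k : ℕ) (e : List ℕ → Bool) (c : ℕ),
      0 ≤ wt e (k + D) [] c * Gr e (k + D) [c] 1 (1 / 18) ∧
      wt e (k + D) [] c * Gr e (k + D) [c] 1 (1 / 18) ≤ YA D k [c] e := by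
    intro k e c
    have hs : (1 / 18 : ℝ) ∈ Set.Icc (0 : ℝ) 1 := ⟨by norm_num, by norm_num⟩
    have hmem := Gr_mem e (k + D) [c] 1 (1 / 18) (Adm_one e _ _) hs
    have hw := wt_pos e (k + D) [] c
    refine ⟨mul_nonneg hw.le hmem.1, ?_⟩
    rw [add_comm k D] at hmem hw ⊢
    obtain ⟨Φ, hΦ, h1, h2, _⟩ := exists_dom hD e k [c]
    have hC := Cc_bounds e (D + k) [c]
    have h3 := h1 1 (Adm_one e _ _) (1 / 18) hs
    have h4 : Φ (1 * Cc e (D + k) [c] * (1 / 18)) ≤ Φ (1 / 36) := hΦ.anti (by linarith)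
    have h5 : wt e (D + k) [] c ≤ Cc e (D + k) [c] := by
      unfold wt
      apply div_le_self (Cc_pos _ _ _).le (Sc_ge_one _ _ _)
    unfold YA
    exact mul_le_mul h5 (h3.trans (h4.trans h2)) hmem.1 (Cc_pos _ _ _).le
  apply tendsto_of_tendsto_of_tendsto_of_le_of_le tendsto_const_nhds hlim
  · intro k
    apply integral_nonneg
    intro e
    apply sum_nonneg
    intro c _
    exact (hGr k e c).1
  · intro k
    obtain ⟨X, Y, hX0, hY0, hXY, hX, hY⟩ := key k
    have hi : Integrable (fun e => ∑ c ∈ range 5, YA D k [c] e) (PP p) :=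
      integrable_finsetSum _ (fun c _ => YA_int D k [c])
    calc ∫ e, ∑ c ∈ Finset.range (deg (e [])), wt e (k + D) [] c * Gr e (k + D) [c] 1 (1/18)
          ∂(PP p) ≤ ∫ e, ∑ c ∈ range 5, YA D k [c] e ∂(PP p) := by
          apply integral_mono_of_nonneg _ hi
          · filter_upwards with e
            calc ∑ c ∈ Finset.range (deg (e [])), wt e (k + D) [] c * Gr e (k + D) [c] 1 (1/18)
                ≤ ∑ c ∈ Finset.range (deg (e [])), YA D k [c] e :=
                  sum_le_sum (fun c _ => (hGr k e c).2)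
              _ ≤ ∑ c ∈ range 5, YA D k [c] e :=
                  sum_le_sum_of_subset_of_nonneg (range_mono (deg_le _))
                    (fun c _ _ => YA_nonneg D k [c] e)
          · filter_upwards with e
            apply sum_nonneg
            intro c _
            exact (hGr k e c).1
      _ = ∑ c ∈ range 5, ∫ e, YA D k [c] e ∂(PP p) :=
          integral_finsetSum _ (fun c _ => YA_int D k [c])
      _ ≤ ∑ c ∈ range 5, X := sum_le_sum (fun c _ => hX [c])
      _ = 5 * X := by simp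
      _ ≤ 5 * (1 / 10 ^ 5 * (995 / 1000 : ℝ) ^ k) := by linarith

end Pool.Agent.Work.MP_9e3593_pr
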